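import Pool.Agent.H23.BG.TargetsW

/-!
# Module W_EP of the board brg_modules: the logarithmic derivative of the Euler product
-/

set_option autoImplicit false

open Polynomial

namespace Pool.Agent.H63.BG.W_EP

open Pool.Agent.H23.BG

variable {F : Type} [Field F] [Fintype F]

theorem finDeg (n : ℕ) : {g : F[X] | g.natDegree ≤ n}.Finite := by
  have h1 : Finite (degreeLT F (n + 1)) := Finite.of_equiv _ (degreeLTEquiv F (n + 1)).toEquiv.symm
  have h2 : ((degreeLT F (n + 1) : Submodule F F[X]) : Set F[X]).Finite := Set.toFinite _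
  refine h2.subset fun g hg => ?_
  rw [SetLike.mem_coe, mem_degreeLT]
  exact lt_of_le_of_lt degree_le_natDegree (by exact_mod_cast Nat.lt_succ_of_le hg)

theorem finG (n : ℕ) : {g : F[X] | g.Monic ∧ g.natDegree = n}.Finite :=
  (finDeg n).subset fun _ hg => hg.2.le

theorem finP (n : ℕ) : {g : F[X] | g.Monic ∧ Irreducible g ∧ g.natDegree ≤ n}.Finite :=
  (finDeg n).subset fun _ hg => hg.2.2

open Classical in
/-- the degree of a monic polynomial in terms of the powers of primes which divide it -/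
theorem degsum (n : ℕ) (g : F[X]) (hg : g.Monic) (hn : g.natDegree = n) :
    n = ∑ P ∈ (finP (F := F) n).toFinset, ∑ j ∈ Finset.Icc 1 n,
      if P ^ j ∣ g then P.natDegree else 0 := by
  have hg0 : g ≠ 0 := hg.ne_zero
  set m := UniqueFactorizationMonoid.normalizedFactors g with hm
  have hprod : m.prod = g := by
    rw [hm, UniqueFactorizationMonoid.prod_normalizedFactors_eq hg0, hg.normalize_eq_self]
  have hirr : ∀ P ∈ m, Irreducible P := fun P hP =>
    UniqueFactorizationMonoid.irreducible_of_normalized_factor P hP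
  have hmon : ∀ P ∈ m, P.Monic := fun P hP => by
    have h1 := UniqueFactorizationMonoid.normalize_normalized_factor P hP
    rw [← h1]
    exact monic_normalize (hirr P hP).ne_zero
  have hcount : ∀ P : F[X], P.Monic → Irreducible P → ∀ j : ℕ, P ^ j ∣ g ↔ j ≤ m.count P := by
    intro P hP hPi j
    rw [pow_dvd_iff_le_emultiplicity,
      UniqueFactorizationMonoid.emultiplicity_eq_count_normalizedFactors hPi hg0,
      hP.normalize_eq_self]
    exact_mod_cast Iff.rfl
  have hle : ∀ P : F[X], P.Monic → Irreducible P → m.count P ≤ n := by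
    intro P hP hPi
    have h1 := natDegree_le_of_dvd ((hcount P hP hPi _).2 le_rfl) hg0
    rw [natDegree_pow, hn] at h1
    have h2 : 0 < P.natDegree := hPi.natDegree_pos
    nlinarith
  have h3 : n = ∑ P ∈ m.toFinset, m.count P • P.natDegree := by
    rw [← Finset.sum_multiset_map_count, ← natDegree_multiset_prod_of_monic m hmon, hprod, hn]
  have h4 : ∑ P ∈ m.toFinset, m.count P • P.natDegree =
      ∑ P ∈ (finP (F := F) n).toFinset, m.count P • P.natDegree := by
    refine Finset.sum_subset (fun P hP => ?_) fun P _ hP => ?_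
    · rw [Multiset.mem_toFinset] at hP
      rw [Set.Finite.mem_toFinset]
      refine ⟨hmon P hP, hirr P hP, ?_⟩
      have h5 : P ∣ g := by
        rw [← hprod]
        exact Multiset.dvd_prod hP
      exact (natDegree_le_of_dvd h5 hg0).trans hn.le
    · rw [Multiset.mem_toFinset] at hP
      rw [Multiset.count_eq_zero_of_notMem hP, zero_smul]
  rw [h4] at h3
  refine h3.trans (Finset.sum_congr rfl fun P hP => ?_)
  rw [Set.Finite.mem_toFinset] at hP
  rw [← Finset.sum_filter, Finset.sum_const]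
  congr 1
  have h6 : (Finset.Icc 1 n).filter (fun j => P ^ j ∣ g) = Finset.Icc 1 (m.count P) := by
    ext j
    rw [Finset.mem_filter, Finset.mem_Icc, Finset.mem_Icc, hcount P hP.1 hP.2.1]
    have := hle P hP.1 hP.2.1
    omega
  rw [h6, Nat.card_Icc]
  omega

omit [Fintype F] in
theorem Xpow {Xf : F[X] → ℂ} (h1 : Xf 1 = 1)
    (h2 : ∀ g h : F[X], g.Monic → h.Monic → Xf (g * h) = Xf g * Xf h) {P : F[X]} (hP : P.Monic)
    (j : ℕ) : Xf (P ^ j) = Xf P ^ j := by
  induction j with
  | zero => rw [pow_zero, pow_zero, h1]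
  | succ j ih => rw [pow_succ, h2 _ _ (hP.pow j) hP, ih, pow_succ]

theorem am_eq (Xf : F[X] → ℂ) (n : ℕ) : am F Xf n = ∑ g ∈ (finG (F := F) n).toFinset, Xf g := by
  unfold am
  exact finsum_mem_eq_finite_toFinset_sum _ (finG n)

open Classical in
theorem sm_eq (Xf : F[X] → ℂ) (n k : ℕ) (hk : 1 ≤ k) (hkn : k ≤ n) :
    sm F Xf k = ∑ P ∈ (finP (F := F) n).toFinset,
      if P.natDegree ∣ k then (P.natDegree : ℂ) * Xf P ^ (k / P.natDegree) else 0 := by
  have hfin : {P : F[X] | P.Monic ∧ Irreducible P ∧ P.natDegree ∣ k}.Finite :=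
    (finDeg k).subset fun P hP => Nat.le_of_dvd hk hP.2.2
  unfold sm
  rw [finsum_mem_eq_finite_toFinset_sum _ hfin, ← Finset.sum_filter]
  refine Finset.sum_congr ?_ fun _ _ => rfl
  ext P
  rw [Set.Finite.mem_toFinset, Finset.mem_filter, Set.Finite.mem_toFinset]
  constructor
  · rintro ⟨a1, a2, a3⟩
    exact ⟨⟨a1, a2, (Nat.le_of_dvd hk a3).trans hkn⟩, a3⟩
  · rintro ⟨⟨a1, a2, -⟩, a3⟩
    exact ⟨a1, a2, a3⟩

open Classical in
/-- the multiples of `P ^ j` -/
theorem mult {Xf : F[X] → ℂ} (h1 : Xf 1 = 1)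
    (h2 : ∀ g h : F[X], g.Monic → h.Monic → Xf (g * h) = Xf g * Xf h) {P : F[X]} (hP : P.Monic)
    (n j : ℕ) : ∑ g ∈ (finG (F := F) n).toFinset, (if P ^ j ∣ g then Xf g else 0) =
      if j * P.natDegree ≤ n then Xf P ^ j * am F Xf (n - j * P.natDegree) else 0 := by
  have hPj : (P ^ j).Monic := hP.pow j
  have hd : (P ^ j).natDegree = j * P.natDegree := hP.natDegree_pow j
  by_cases hj : j * P.natDegree ≤ n
  · rw [if_pos hj, am_eq, ← Finset.sum_filter, Finset.mul_sum]
    symm
    refine Finset.sum_bij' (fun h _ => P ^ j * h) (fun g _ => g /ₘ P ^ j) ?_ ?_ ?_ ?_ ?_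
    · intro h hh
      rw [Set.Finite.mem_toFinset] at hh
      rw [Finset.mem_filter, Set.Finite.mem_toFinset]
      refine ⟨⟨hPj.mul hh.1, ?_⟩, dvd_mul_right _ _⟩
      rw [hPj.natDegree_mul hh.1, hd, hh.2]
      omega
    · intro g hg
      rw [Finset.mem_filter, Set.Finite.mem_toFinset] at hg
      rw [Set.Finite.mem_toFinset]
      obtain ⟨⟨hg1, hg2⟩, h, rfl⟩ := hg
      rw [mul_divByMonic_cancel_left _ hPj]
      have hh : h.Monic := Monic.of_mul_monic_left hPj hg1
      refine ⟨hh, ?_⟩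
      rw [hPj.natDegree_mul hh, hd] at hg2
      omega
    · intro h _
      exact mul_divByMonic_cancel_left _ hPj
    · intro g hg
      rw [Finset.mem_filter] at hg
      obtain ⟨-, h, rfl⟩ := hg
      rw [mul_divByMonic_cancel_left _ hPj]
    · intro h hh
      rw [Set.Finite.mem_toFinset] at hh
      rw [h2 _ _ hPj hh.1, Xpow h1 h2 hP]
  · rw [if_neg hj]
    refine Finset.sum_eq_zero fun g hg => ?_
    rw [Set.Finite.mem_toFinset] at hg
    rw [if_neg]
    intro hdvd
    have := natDegree_le_of_dvd hdvd hg.1.ne_zero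
    rw [hd, hg.2] at this
    exact hj this

/-- the multiples of `d` -/
theorem reind (n d : ℕ) (hd : 1 ≤ d) (f : ℕ → ℂ) :
    ∑ j ∈ Finset.Icc 1 n, (if j * d ≤ n then f j else 0) =
      ∑ k ∈ Finset.Icc 1 n, if d ∣ k then f (k / d) else 0 := by
  rw [← Finset.sum_filter, ← Finset.sum_filter]
  refine Finset.sum_bij' (fun j _ => j * d) (fun k _ => k / d) ?_ ?_ ?_ ?_ ?_
  · intro j hj
    rw [Finset.mem_filter, Finset.mem_Icc] at hj ⊢
    exact ⟨⟨Nat.mul_pos hj.1.1 hd, hj.2⟩, dvd_mul_left _ _⟩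
  · intro k hk
    rw [Finset.mem_filter, Finset.mem_Icc] at hk ⊢
    obtain ⟨⟨hk1, hk2⟩, c, rfl⟩ := hk
    have h3 : d * c / d = c := Nat.mul_div_cancel_left c hd
    rw [h3]
    have hc : 1 ≤ c := by
      rcases Nat.eq_zero_or_pos c with h | h
      · subst h
        simp at hk1
      · exact h
    refine ⟨⟨hc, ?_⟩, by rw [mul_comm]; exact hk2⟩
    exact le_trans (Nat.le_mul_of_pos_left c hd) hk2
  · intro j _
    exact Nat.mul_div_cancel j hd
  · intro k hk
    rw [Finset.mem_filter] at hk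
    exact Nat.div_mul_cancel hk.2
  · intro j _
    rw [Nat.mul_div_cancel j hd]

open Classical in
theorem pf_W_EP : W_EP := by
  intro F _ _ Xf h1 h2 n hn
  have hL : (n : ℂ) * am F Xf n = ∑ P ∈ (finP (F := F) n).toFinset, ∑ j ∈ Finset.Icc 1 n,
      (P.natDegree : ℂ) * (if j * P.natDegree ≤ n then Xf P ^ j * am F Xf (n - j * P.natDegree)
        else 0) := by
    rw [am_eq, Finset.mul_sum]
    have h3 : ∀ g ∈ (finG (F := F) n).toFinset, (n : ℂ) * Xf g =
        ∑ P ∈ (finP (F := F) n).toFinset, ∑ j ∈ Finset.Icc 1 n,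
          (P.natDegree : ℂ) * (if P ^ j ∣ g then Xf g else 0) := by
      intro g hg
      rw [Set.Finite.mem_toFinset] at hg
      have h4 := degsum n g hg.1 hg.2
      have h5 : (n : ℂ) = ∑ P ∈ (finP (F := F) n).toFinset, ∑ j ∈ Finset.Icc 1 n,
          (if P ^ j ∣ g then (P.natDegree : ℂ) else 0) := by
        conv_lhs => rw [h4]
        push_cast
        rfl
      rw [h5, Finset.sum_mul]
      refine Finset.sum_congr rfl fun P _ => ?_
      rw [Finset.sum_mul]
      refine Finset.sum_congr rfl fun j _ => ?_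
      split_ifs <;> simp
    rw [Finset.sum_congr rfl h3, Finset.sum_comm]
    refine Finset.sum_congr rfl fun P hP => ?_
    rw [Set.Finite.mem_toFinset] at hP
    rw [Finset.sum_comm]
    refine Finset.sum_congr rfl fun j _ => ?_
    rw [← Finset.mul_sum, mult h1 h2 hP.1]
  have hR : ∑ k ∈ Finset.Icc 1 n, sm F Xf k * am F Xf (n - k) =
      ∑ P ∈ (finP (F := F) n).toFinset, ∑ k ∈ Finset.Icc 1 n,
        if P.natDegree ∣ k then (P.natDegree : ℂ) * (Xf P ^ (k / P.natDegree) *
          am F Xf (n - (k / P.natDegree) * P.natDegree)) else 0 := by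
    rw [Finset.sum_comm]
    refine Finset.sum_congr rfl fun k hk => ?_
    rw [Finset.mem_Icc] at hk
    rw [sm_eq Xf n k hk.1 hk.2, Finset.sum_mul]
    refine Finset.sum_congr rfl fun P _ => ?_
    split_ifs with h
    · rw [Nat.div_mul_cancel h]
      ring
    · ring
  rw [hL, hR]
  refine Finset.sum_congr rfl fun P hP => ?_
  rw [Set.Finite.mem_toFinset] at hP
  rw [← reind n P.natDegree hP.2.1.natDegree_pos (fun j => (P.natDegree : ℂ) * (Xf P ^ j *
    am F Xf (n - j * P.natDegree)))]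
  refine Finset.sum_congr rfl fun j _ => ?_
  split_ifs <;> simp

end Pool.Agent.H63.BG.W_EP
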