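import Pool.Agent.H23.BG.TargetsP

/-!
# Module P_WT of the board brg_modules: the numerical inequality for the bounds
-/

set_option autoImplicit false

namespace Pool.Agent.H63.BG.P_WT

open Pool.Agent.H23.BG

theorem pf_P_WT : P_WT := by
  intro A N n₂ n₃ n₄ V hA hN h4 h34 h23 hV
  have hN0 : (0 : ℝ) ≤ N := by linarith
  have h3 : 1 ≤ n₃ := h4.trans h34
  have h2 : 1 ≤ n₂ := h3.trans h23
  have p4 : 0 < n₄ := by linarith
  have p3 : 0 < n₃ := by linarith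
  have p2 : 0 < n₂ := by linarith
  set s : ℝ := N ^ (1 / 4 : ℝ) with hs
  have hs1 : 1 ≤ s := Real.one_le_rpow hN (by norm_num)
  have hs0 : 0 < s := by linarith
  have hsN : N = s ^ 4 := by
    rw [hs, ← Real.rpow_natCast, ← Real.rpow_mul hN0]
    norm_num
  have hs2 : N ^ (1 / 2 : ℝ) = s ^ 2 := by
    rw [hs, ← Real.rpow_natCast, ← Real.rpow_mul hN0]
    norm_num
  have hs3 : N ^ (3 / 4 : ℝ) = s ^ 3 := by
    rw [hs, ← Real.rpow_natCast, ← Real.rpow_mul hN0]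
    norm_num
  have hV0 : 0 < V := by linarith
  have hVi : V ^ (-2 : ℝ) = (V ^ 2)⁻¹ := by
    rw [Real.rpow_neg hV0.le]
    norm_num
  have r34 : (n₃ * n₄) ^ (1 / 2 : ℝ) ≤ n₃ := by
    rw [← Real.sqrt_eq_rpow]
    rw [Real.sqrt_le_left p3.le]
    nlinarith
  have r234 : (n₂ * n₃ * n₄) ^ (2 / 3 : ℝ) ≤ n₂ * n₃ := by
    have e1 : (n₂ * n₃ * n₄) ^ (2 / 3 : ℝ) = ((n₂ * n₃ * n₄) ^ 2) ^ (1 / 3 : ℝ) := by
      rw [← Real.rpow_natCast, ← Real.rpow_mul (by positivity)]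
      norm_num
    have e2 : n₂ * n₃ = ((n₂ * n₃) ^ 3) ^ (1 / 3 : ℝ) := by
      rw [← Real.rpow_natCast, ← Real.rpow_mul (by positivity)]
      norm_num
    rw [e1]
    conv_rhs => rw [e2]
    refine Real.rpow_le_rpow (by positivity) ?_ (by norm_num)
    have e3 : n₄ ^ 2 ≤ n₂ * n₃ := by nlinarith
    have e4 : (n₂ * n₃ * n₄) ^ 2 = (n₂ * n₃) ^ 2 * n₄ ^ 2 := by ring
    have e5 : (n₂ * n₃) ^ 3 = (n₂ * n₃) ^ 2 * (n₂ * n₃) := by ring
    rw [e4, e5]
    exact mul_le_mul_of_nonneg_left e3 (by positivity)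
  set w : ℝ := wt A N n₂ n₃ n₄ with hw
  have w1 : w ≤ s ^ 4 := by
    rw [← hsN, hw]
    exact min_le_left _ _
  have w4 : w ≤ A * s ^ 3 * n₃ := by
    have : w ≤ A * N ^ (3 / 4 : ℝ) * (n₃ * n₄) ^ (1 / 2 : ℝ) := by
      rw [hw]
      exact (min_le_right _ _).trans ((min_le_right _ _).trans ((min_le_right _ _).trans
        (min_le_right _ _)))
    rw [hs3] at this
    exact this.trans (mul_le_mul_of_nonneg_left r34 (by positivity))
  have w5 : w ≤ A * s ^ 3 * n₂ := w4.trans (mul_le_mul_of_nonneg_left h23 (by positivity))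
  have w6 : w ≤ A * s ^ 2 * (n₂ * n₃) := by
    have : w ≤ A * N ^ (1 / 2 : ℝ) * (n₂ * n₃ * n₄) ^ (2 / 3 : ℝ) := by
      rw [hw]
      exact (min_le_right _ _).trans (min_le_left _ _)
    rw [hs2] at this
    exact this.trans (mul_le_mul_of_nonneg_left r234 (by positivity))
  rw [hVi, hs2]
  have key : w * (V ^ 2)⁻¹ * (1 + V / n₂ + V / n₃ + V ^ 2 / (n₂ * n₃)) =
      w / V ^ 2 + w / (V * n₂) + w / (V * n₃) + w / (n₂ * n₃) := by
    field_simp
  rw [key]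
  have t1 : w / V ^ 2 ≤ s ^ 2 := by
    rw [div_le_iff₀ (by positivity)]
    have : s ^ 2 ≤ V ^ 2 := by nlinarith
    nlinarith [sq_nonneg s]
  have t2 : w / (V * n₂) ≤ A * s ^ 2 := by
    rw [div_le_iff₀ (by positivity)]
    have e : A * s ^ 3 * n₂ ≤ A * s ^ 2 * (V * n₂) := by
      have : A * s ^ 2 * n₂ * s ≤ A * s ^ 2 * n₂ * V :=
        mul_le_mul_of_nonneg_left hV (by positivity)
      nlinarith
    linarith
  have t3 : w / (V * n₃) ≤ A * s ^ 2 := by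
    rw [div_le_iff₀ (by positivity)]
    have e : A * s ^ 3 * n₃ ≤ A * s ^ 2 * (V * n₃) := by
      have : A * s ^ 2 * n₃ * s ≤ A * s ^ 2 * n₃ * V :=
        mul_le_mul_of_nonneg_left hV (by positivity)
      nlinarith
    linarith
  have t4 : w / (n₂ * n₃) ≤ A * s ^ 2 := by
    rw [div_le_iff₀ (by positivity)]
    exact w6
  have t5 : s ^ 2 ≤ A * s ^ 2 := by nlinarith [sq_nonneg s]
  linarith

end Pool.Agent.H63.BG.P_WT
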