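import Pool.Agent.H23.BG.TargetsP
import Pool.Agent.H29.DW.Targets
import Pool.Agent.H87.HK.YC

/-!
# Module P_ZM of the board brg_modules: the total mass
-/

set_option autoImplicit false

open NumberField NumberField.InfinitePlace NumberField.Units
  NumberField.Units.dirichletUnitTheorem MeasureTheory Set Filter Complex
open scoped nonZeroDivisors ENNReal

namespace Pool.Agent.H63.BG.P_ZM

open Pool.Agent.H23.BG Pool.Agent.H25.HK Pool.Agent.H23.LB Pool.Agent.H23.LC Pool.Agent.H29.DW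

theorem pf_P_ZM (hCT : V_CT) (hCB : P_CB) : P_ZM := by
  intro n hn κ hκ hκ1
  obtain ⟨C, hC, H⟩ := hCT n hn κ hκ hκ1
  obtain ⟨C', -, HB⟩ := hCB n hn
  refine ⟨C * (2 : ℝ) ^ (1 + κ), by positivity, fun K _ _ hK ι _ M hM => ?_⟩
  classical
  have hd : (0 : ℝ) < Real.sqrt |(discr K : ℝ)| := by
    apply Real.sqrt_pos.2
    rw [abs_pos]
    exact_mod_cast discr_ne_zero K
  set τ : ℝ := -Real.log (2 * Real.sqrt |(discr K : ℝ)|) with hτ
  have hexp : Real.exp (-τ) = 2 * Real.sqrt |(discr K : ℝ)| := by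
    rw [hτ, neg_neg, Real.exp_log (by positivity)]
  have hVV : VV K ⊤ (fun _ => 0) τ = 2 := by
    unfold VV Pool.Agent.H23.LB.Nf
    simp only [mul_zero, Finset.sum_const_zero, zero_div, sub_zero, Ideal.absNorm_top,
      Nat.cast_one, mul_one]
    rw [hexp]
    field_simp
  have h1 := (H K hK ι M hM ⊤ ⊤ (fun _ => 0) (fun _ => 0) τ top_ne_bot top_ne_bot).2
  rw [hVV] at h1
  have h2 : ∀ c, volume (Fd K) ≤ ∫⁻ z in Fd K, ENNReal.ofReal
      (th K (((⊤ : Ideal (𝓞 K)) : FI K) * M c) (fun v => yM K (M c) τ z v + 0) - 1) := by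
    intro c
    rw [← setLIntegral_one]
    refine lintegral_mono fun z => ?_
    rw [FractionalIdeal.coeIdeal_top, one_mul]
    simp only [add_zero]
    have h3 := (HB K hK (M c) (yM K (M c) τ z) (hM.1 c)).2.2.2.2.2.1
    have hN : 0 < (FractionalIdeal.absNorm (M c) : ℝ) := by
      have h4 : (0 : ℚ) ≤ FractionalIdeal.absNorm (M c) := FractionalIdeal.absNorm_nonneg _
      have h5 : FractionalIdeal.absNorm (M c) ≠ 0 := fun h =>
        hM.1 c (FractionalIdeal.absNorm_eq_zero_iff.1 h)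
      exact_mod_cast lt_of_le_of_ne h4 (Ne.symm h5)
    have h6 : ∑ v, (v.mult : ℝ) * yM K (M c) τ z v =
        2 * (τ - Real.log (FractionalIdeal.absNorm (M c) : ℝ)) :=
      (Pool.Agent.H87.HK.yc_main K).1 _ _
    rw [h6] at h3
    have h7 : Real.exp (-(2 * (τ - Real.log (FractionalIdeal.absNorm (M c) : ℝ))) / 2) /
        cv K (M c) = 2 := by
      have e1 : -(2 * (τ - Real.log (FractionalIdeal.absNorm (M c) : ℝ))) / 2 =
          -τ + Real.log (FractionalIdeal.absNorm (M c) : ℝ) := by ring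
      rw [e1, Real.exp_add, hexp, Real.exp_log hN]
      unfold cv
      field_simp
    rw [h7] at h3
    have h8 : (1 : ℝ≥0∞) = ENNReal.ofReal 1 := ENNReal.ofReal_one.symm
    rw [h8]
    exact ENNReal.ofReal_le_ofReal (by linarith)
  refine (Finset.sum_le_sum fun c _ => h2 c).trans (h1.trans (le_of_eq ?_))
  congr 1
  ring

end Pool.Agent.H63.BG.P_ZM
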