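import Pool.Agent.H23.BG.TargetsW

/-!
# Module W_LX of the board brg_modules: the function lx
-/

set_option autoImplicit false

open Polynomial

namespace Pool.Agent.H63.BG.W_LX

open Pool.Agent.H23.BG

variable {F : Type} [Field F]

theorem rvp_one (b : F) : rvp b (1 : F[X]) = 1 := by
  unfold rvp
  simp

theorem rvp_mul (b : F) {g h : F[X]} (hg : g.Monic) (hh : h.Monic) :
    rvp b (g * h) = rvp b g * rvp b h := by
  unfold rvp
  rw [hg.natDegree_mul hh, eval_mul, pow_add]
  ring

/-- the norm from the field generated by `y` -/
theorem norm_gen {E : Type} [Field E] [Algebra F E] [FiniteDimensional F E] (y : E) (c : F) :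
    Algebra.norm F (algebraMap F (IntermediateField.adjoin F {y}) c -
      IntermediateField.AdjoinSimple.gen F y) = (minpoly F y).eval c := by
  have hy : IsIntegral F y := Algebra.IsIntegral.isIntegral y
  let pb := IntermediateField.adjoin.powerBasis hy
  have hgen : pb.gen = IntermediateField.AdjoinSimple.gen F y := rfl
  rw [Algebra.norm_eq_matrix_det pb.basis, map_sub, ← hgen]
  have h1 : Algebra.leftMulMatrix pb.basis (algebraMap F (IntermediateField.adjoin F {y}) c) =
      Matrix.scalar _ c := by
    rw [AlgHom.commutes]
    rfl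
  rw [h1, ← Matrix.eval_charpoly, charpoly_leftMulMatrix, hgen,
    IntermediateField.minpoly_gen]

theorem norm_eq {E : Type} [Field E] [Algebra F E] [FiniteDimensional F E] (y : E) {b : F}
    (hb : b ≠ 0) : Algebra.norm F (1 + algebraMap F E b * y) =
      rvp b (minpoly F y) ^ (Module.finrank F E / (minpoly F y).natDegree) := by
  have hy : IsIntegral F y := Algebra.IsIntegral.isIntegral y
  set L := IntermediateField.adjoin F {y} with hL
  have h1 : Module.finrank F L = (minpoly F y).natDegree := IntermediateField.adjoin.finrank hy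
  have h2 : Module.finrank F L * Module.finrank L E = Module.finrank F E :=
    Module.finrank_mul_finrank F L E
  have h3 : Module.finrank F E / (minpoly F y).natDegree = Module.finrank L E := by
    rw [← h2, ← h1]
    exact Nat.mul_div_cancel_left _ Module.finrank_pos
  let x : L := algebraMap F L (-b) * (algebraMap F L (-b⁻¹) -
    IntermediateField.AdjoinSimple.gen F y)
  have h4 : algebraMap L E x = 1 + algebraMap F E b * y := by
    show algebraMap L E (algebraMap F L (-b) * (algebraMap F L (-b⁻¹) -
      IntermediateField.AdjoinSimple.gen F y)) = _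
    rw [map_mul, map_sub, IntermediateField.AdjoinSimple.algebraMap_gen,
      ← IsScalarTower.algebraMap_apply F L E, ← IsScalarTower.algebraMap_apply F L E, map_neg,
      map_neg, map_inv₀]
    have hb' : algebraMap F E b ≠ 0 := by
      rw [Ne, map_eq_zero]
      exact hb
    field_simp
    ring
  have h5 : Algebra.norm F x = rvp b (minpoly F y) := by
    show Algebra.norm F (algebraMap F L (-b) * (algebraMap F L (-b⁻¹) -
      IntermediateField.AdjoinSimple.gen F y)) = _
    rw [map_mul, Algebra.norm_algebraMap, norm_gen, h1]
    rfl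
  rw [← h4, ← Algebra.norm_norm (S := L), Algebra.norm_algebraMap, map_pow, h5, h3]

theorem pf_W_LX : W_LX := by
  intro F _ _ χ b₁ b₂ b₃ h1 h2 h3
  refine ⟨⟨?_, fun g h hg hh => ?_⟩, fun E _ _ _ y => ?_⟩
  · unfold lx
    rw [rvp_one, rvp_one, rvp_one, map_one, map_one]
    norm_num
  · unfold lx
    rw [rvp_mul b₁ hg hh, rvp_mul b₂ hg hh, rvp_mul b₃ hg hh, map_mul, map_mul, map_mul,
      map_mul, map_mul]
    ring
  · have : Module.Finite F E := Module.Finite.of_finite
    rw [norm_eq y h1, norm_eq y h2, norm_eq y h3]
    unfold lx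
    simp only [map_pow, mul_pow]

end Pool.Agent.H63.BG.W_LX
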